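import Pool.Agent.Y773.NV.St1
import Pool.Agent.Y773.AB.Cnt

/-!
# Number and separation of the ideals in a ray class of an imaginary quadratic field

Job NV773 CNT (helper340).
-/

set_option autoImplicit false

open Complex MeasureTheory NumberField

namespace Pool.Agent.Y340.NV

open Pool.Agent.Y773.NV
open Pool.Agent.Y773.AB (elts_le reps)
open Pool.Agent.Y773.IQ (absNorm_pos' norm_sub_le' finite_units)

section

variable {K : Type} [Field K] [NumberField K]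

omit [NumberField K] in
theorem rel_common {𝔢 𝔲 𝔲' 𝔳 : Ideal (𝓞 K)} (h : Rel 𝔢 𝔲 𝔳) (h' : Rel 𝔢 𝔲' 𝔳) :
    Rel 𝔢 𝔲 𝔲' := by
  obtain ⟨x, y, hx0, hy0, hx, hy, hxy⟩ := h
  obtain ⟨x', y', hx0', hy0', hx', hy', hxy'⟩ := h'
  refine ⟨x * y', x' * y, mul_ne_zero hx0 hy0', mul_ne_zero hx0' hy0, ?_, ?_, ?_⟩
  · have : x * y' - 1 = y' * (x - 1) + (y' - 1) := by ring
    rw [this]
    exact add_mem (Ideal.mul_mem_left _ _ hx) hy'
  · have : x' * y - 1 = y * (x' - 1) + (y - 1) := by ring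
    rw [this]
    exact add_mem (Ideal.mul_mem_left _ _ hx') hy
  · rw [← Ideal.span_singleton_mul_span_singleton, ← Ideal.span_singleton_mul_span_singleton]
    calc 𝔲 * (Ideal.span {x} * Ideal.span {y'}) = (𝔲 * Ideal.span {x}) * Ideal.span {y'} := by ring
      _ = (𝔳 * Ideal.span {y'}) * Ideal.span {y} := by rw [hxy]; ring
      _ = _ := by rw [← hxy']; ring

theorem rel_gen {𝔢 𝔲 𝔲' 𝔟 : Ideal (𝓞 K)} (h : Rel 𝔢 𝔲 𝔲') {a : 𝓞 K}
    (ha : Ideal.span {a} = 𝔲' * 𝔟) : ∃ a' : 𝓞 K, Ideal.span {a'} = 𝔲 * 𝔟 ∧ a' - a ∈ 𝔢 := by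
  obtain ⟨x, y, hx0, hy0, hx, hy, hxy⟩ := h
  have h1 : Ideal.span {x} * (𝔲 * 𝔟) = Ideal.span {y * a} := by
    rw [← Ideal.span_singleton_mul_span_singleton, ha]
    calc Ideal.span {x} * (𝔲 * 𝔟) = (𝔲 * Ideal.span {x}) * 𝔟 := by ring
      _ = _ := by rw [hxy]; ring
  have h2 : y * a ∈ Ideal.span {x} := by
    have h3 : y * a ∈ Ideal.span {x} * (𝔲 * 𝔟) := by
      rw [h1]; exact Ideal.mem_span_singleton_self _
    exact Ideal.mul_le_left h3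
  obtain ⟨a', ha'⟩ := Ideal.mem_span_singleton'.mp h2
  refine ⟨a', ?_, ?_⟩
  · have h3 : Ideal.span {x} * Ideal.span {a'} = Ideal.span {x} * (𝔲 * 𝔟) := by
      rw [h1, Ideal.span_singleton_mul_span_singleton, ← ha', mul_comm]
    have h4 : Ideal.span {x} ≠ (0 : Ideal (𝓞 K)) := by
      rw [Ideal.zero_eq_bot, Ne, Ideal.span_singleton_eq_bot]; exact hx0
    exact mul_left_cancel₀ h4 h3
  · have : a' - a = (-a') * (x - 1) + a * (y - 1) := by linear_combination ha'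
    rw [this]
    exact add_mem (Ideal.mul_mem_left _ _ hx) (Ideal.mul_mem_left _ _ hy)

end

theorem t_cnt : St_CNT := by
  classical
  intro K _ _ _ h2
  have hfu : Finite (𝓞 K)ˣ := finite_units (K := K) h2
  have hNsub := norm_sub_le' (K := K) h2
  have hsubN : ∀ x y : 𝓞 K, (Ideal.absNorm (Ideal.span {x - y}) : ℝ) ≤
      2 * ((Ideal.absNorm (Ideal.span {x}) : ℝ) + Ideal.absNorm (Ideal.span {y})) := by
    intro x y
    exact_mod_cast hNsub x y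
  obtain ⟨C2, hC2, hel⟩ := elts_le K
  obtain ⟨rp, m, hm1, hm, hrp⟩ := reps K
  have key : ∀ (𝔢 𝔲 𝔲' : Ideal (𝓞 K)) (x : ℝ), 𝔲' ≠ ⊥ → nm 𝔲' ≤ x → ∃ a : 𝓞 K, ∃ 𝔟 : Ideal (𝓞 K),
      𝔟 ≠ ⊥ ∧ nm 𝔟 ≤ m ∧ Ideal.span {a} = 𝔲' * 𝔟 ∧ nm (Ideal.span {a}) ≤ m * x := by
    intro 𝔢 𝔲 𝔲' x h1 h3
    obtain ⟨a, ha⟩ := hrp (ClassGroup.mk0 ⟨𝔲', mem_nonZeroDivisors_iff_ne_zero.mpr h1⟩) _ rfl
    refine ⟨a, _, (hm _).1, (hm _).2, ha, ?_⟩
    rw [ha]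
    unfold nm
    rw [map_mul, Nat.cast_mul, mul_comm]
    exact mul_le_mul (hm _).2 h3 (Nat.cast_nonneg _) (by linarith)
  refine ⟨1 + C2 * (4 * m) + 4 * m, by nlinarith, ?_⟩
  intro 𝔢 h𝔢
  have hN : (0 : ℝ) < Ideal.absNorm 𝔢 := by exact_mod_cast absNorm_pos' h𝔢
  refine ⟨?_, ?_⟩
  · intro 𝔳 x S h𝔳 hx hS
    rcases S.eq_empty_or_nonempty with h0 | ⟨𝔲₀, h𝔲₀⟩
    · rw [h0, Finset.card_empty, Nat.cast_zero]
      have : 0 ≤ x / nm 𝔢 := by unfold nm; positivity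
      positivity
    obtain ⟨hu1, hu2, hu3⟩ := hS 𝔲₀ h𝔲₀
    obtain ⟨a, 𝔟, hb, hbm, ha, han⟩ := key 𝔢 𝔲₀ 𝔲₀ x hu1 hu2
    have hex : ∀ 𝔲 : Ideal (𝓞 K), ∃ a' : 𝓞 K, 𝔲 ∈ S → Ideal.span {a'} = 𝔲 * 𝔟 ∧ a' - a ∈ 𝔢 := by
      intro 𝔲
      by_cases hu : 𝔲 ∈ S
      · obtain ⟨a', ha'⟩ := rel_gen (rel_common (hS 𝔲 hu).2.2 hu3) ha
        exact ⟨a', fun _ => ha'⟩
      · exact ⟨0, fun h => absurd h hu⟩
    choose g hg using hex
    have hinj : Set.InjOn (fun 𝔲 => g 𝔲 - a) S := by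
      intro 𝔲 hu 𝔲' hu' he
      rw [Finset.mem_coe] at hu hu'
      have h5 : g 𝔲 = g 𝔲' := sub_left_injective he
      have h6 := (hg 𝔲 hu).1
      rw [h5, (hg 𝔲' hu').1] at h6
      exact (mul_right_cancel₀ hb h6).symm
    have h7 := hel (4 * m * x) 𝔢 (S.image (fun 𝔲 => g 𝔲 - a)) (by positivity) h𝔢 (by
      intro t ht
      obtain ⟨𝔲, hu, rfl⟩ := Finset.mem_image.mp ht
      refine ⟨(hg 𝔲 hu).2, (hsubN _ _).trans ?_⟩
      have h8 : (Ideal.absNorm (Ideal.span {g 𝔲}) : ℝ) ≤ m * x := by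
        rw [(hg 𝔲 hu).1, map_mul, Nat.cast_mul, mul_comm]
        exact mul_le_mul hbm (hS 𝔲 hu).2.1 (Nat.cast_nonneg _) (by linarith)
      have h9 : (Ideal.absNorm (Ideal.span {a}) : ℝ) ≤ m * x := han
      linarith)
    rw [Finset.card_image_of_injOn hinj] at h7
    refine h7.trans ?_
    have h10 : 0 ≤ x / (Ideal.absNorm 𝔢 : ℝ) := by positivity
    have h11 : 4 * m * x / (Ideal.absNorm 𝔢 : ℝ) = 4 * m * (x / (Ideal.absNorm 𝔢 : ℝ)) := by ring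
    rw [h11]
    unfold nm
    have h12 : 0 ≤ C2 * (4 * m) := by positivity
    have h13 : 0 ≤ 4 * m := by positivity
    nlinarith [mul_nonneg h13 h10, mul_nonneg h12 h10]
  · intro 𝔲 𝔳 x hu hv huv hux hvx hrel
    obtain ⟨a, 𝔟, hb, hbm, ha, han⟩ := key 𝔢 𝔲 𝔳 x hv hvx
    obtain ⟨a', ha', hmem⟩ := rel_gen hrel ha
    have h1 : a' - a ≠ 0 := by
      intro h0
      rw [sub_eq_zero] at h0
      rw [h0, ha] at ha'
      exact huv (mul_right_cancel₀ hb ha').symm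
    have h3 : Ideal.absNorm 𝔢 ≤ Ideal.absNorm (Ideal.span {a' - a}) := by
      refine Nat.le_of_dvd (absNorm_pos' ?_) (Ideal.absNorm_dvd_absNorm_of_le
        ((Ideal.span_singleton_le_iff_mem 𝔢).mpr hmem))
      rw [Ne, Ideal.span_singleton_eq_bot]
      exact h1
    have h4 : (Ideal.absNorm 𝔢 : ℝ) ≤ Ideal.absNorm (Ideal.span {a' - a}) := by exact_mod_cast h3
    have h8 : (Ideal.absNorm (Ideal.span {a'}) : ℝ) ≤ m * x := by
      rw [ha', map_mul, Nat.cast_mul, mul_comm]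
      exact mul_le_mul hbm hux (Nat.cast_nonneg _) (by linarith)
    have h9 : (Ideal.absNorm (Ideal.span {a}) : ℝ) ≤ m * x := han
    have hx0 : 0 ≤ x := le_trans (by unfold nm; positivity) hux
    have h5 := hsubN a' a
    unfold nm
    have h12 : 0 ≤ C2 * (4 * m) := by positivity
    nlinarith [mul_nonneg h12 hx0]

end Pool.Agent.Y340.NV
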